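import Pool.Agent.Lib.MP_335999_gt.Abelian
import Pool.Agent.Lib.MP_335999_gt.Heis

/-!
# Countable tightness in locally minimal groups: both versions of the question

Locally minimal abelian groups of countable tightness are metrizable, while there is a locally
minimal (two-step nilpotent) group of countable tightness which is not even sequential.
-/

open scoped commutatorElement

namespace Pool.Agent.Results.MP_335999_gt.FullAnswer

open Pool.Agent.Lib.MP_335999_gt

universe u

theorem result :
    (∀ (G : Type u) [CommGroup G] [TopologicalSpace G] [IsTopologicalGroup G] [T2Space G],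
      LocallyMinimal G → CountablyTight G → TopologicalSpace.MetrizableSpace G) ∧
    (∃ (G : Type) (_ : Group G) (_ : TopologicalSpace G),
      IsTopologicalGroup G ∧ T2Space G ∧ (∀ a b c : G, ⁅⁅a, b⁆, c⁆ = 1) ∧
      LocallyMinimal G ∧ CountablyTight G ∧ ¬ SequentialSpace G) := by
  refine ⟨?_, Heis, inferInstance, inferInstance, inferInstance, inferInstance, Heis.comm_comm,
    Heis.locallyMinimal, Heis.countablyTight, Heis.not_sequential⟩
  intro G _ _ _ _ hmin hct
  exact metrizable_of_locallyMinimal G hmin hct

end Pool.Agent.Results.MP_335999_gt.FullAnswer
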